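import Mathlib

/-!
# A signed sum over triangular numbers

`w30 x / 30` is the number of partitions of `x` into parts `1, 3, 5`. The signed sums
`∑ (-1) ^ T j * w30 (N - T (2 k + j))` over `T (2 k + j) ≤ N` are non-negative.
-/

set_option autoImplicit false

namespace Pool.Agent.P8H96.TTS

open Finset

/-- The triangular number `n (n + 1) / 2`. -/
def T (n : ℕ) : ℕ := n * (n + 1) / 2

theorem two_T (n : ℕ) : 2 * T n = n * (n + 1) :=
  Nat.mul_div_cancel' (Nat.even_mul_succ_self n).two_dvd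

theorem T_succ (n : ℕ) : T (n + 1) = T n + (n + 1) := by
  have h1 := two_T n
  have h2 := two_T (n + 1)
  have h3 : (n + 1) * (n + 1 + 1) = n * (n + 1) + 2 * (n + 1) := by ring
  omega

theorem T_mono {a b : ℕ} (h : a ≤ b) : T a ≤ T b := by
  induction h with
  | refl => exact le_rfl
  | step _ ih => exact ih.trans (by rw [T_succ]; omega)

theorem le_T (n : ℕ) : n ≤ T n := by
  induction n with
  | zero => simp
  | succ n _ => rw [T_succ]; omega

/-- The constant terms of the quasi-polynomial. -/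
def tab : ℕ → ℤ
  | 0 => 30
  | 1 => 20
  | 2 => 8
  | 3 => 24
  | 4 => 8
  | 5 => 20
  | 6 => 30
  | 7 => 8
  | 8 => 14
  | 9 => 18
  | 10 => 20
  | 11 => 20
  | 12 => 18
  | 13 => 14
  | _ => 8

/-- Thirty times the number of partitions of `x` into parts `1, 3, 5`. -/
def w30 (x : ℕ) : ℤ := (x : ℤ) ^ 2 + 9 * x + tab (x % 15)

theorem tab_bd (n : ℕ) : 8 ≤ tab n ∧ tab n ≤ 30 := by
  unfold tab
  split <;> constructor <;> norm_num

/-- The sign `(-1) ^ T j`. -/
def sg (j : ℕ) : ℤ := (-1) ^ T j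

theorem sg_add_two (j : ℕ) : sg (j + 2) = - sg j := by
  unfold sg
  rw [T_succ, T_succ]
  have h : T j + (j + 1) + (j + 1 + 1) = T j + (2 * (j + 1) + 1) := by ring
  rw [h, pow_add, pow_succ ((-1 : ℤ)) (2 * (j + 1)), pow_mul]
  norm_num

theorem sg_cases (j : ℕ) : sg j = 1 ∨ sg j = -1 := neg_one_pow_eq_or ℤ _

theorem sg_zero : sg 0 = 1 := rfl

theorem sg_one : sg 1 = -1 := rfl

theorem sg_two : sg 2 = -1 := rfl

theorem psum (n : ℕ) : 2 * ∑ j ∈ range (n + 1), sg j = sg n - sg (n + 1) := by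
  induction n with
  | zero => simp [sg_zero, sg_one]
  | succ n ih =>
    rw [sum_range_succ, mul_add, ih, sg_add_two]
    ring

theorem psum_abs (n : ℕ) : |∑ j ∈ range (n + 1), sg j| ≤ 1 := by
  have h := psum n
  rw [abs_le]
  rcases sg_cases n with h1 | h1 <;> rcases sg_cases (n + 1) with h2 | h2 <;>
    rw [h1, h2] at h <;> constructor <;> linarith

/-- The sum of the constant terms. -/
theorem tab_sum (n : ℕ) (r : ℕ → ℕ) :
    |∑ j ∈ range (n + 1), sg j * tab (r j)| ≤ 19 + 11 * (n + 1) := by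
  have e : ∑ j ∈ range (n + 1), sg j * tab (r j) =
      19 * ∑ j ∈ range (n + 1), sg j + ∑ j ∈ range (n + 1), sg j * (tab (r j) - 19) := by
    rw [mul_sum, ← sum_add_distrib]
    apply sum_congr rfl
    intro j _
    ring
  rw [e]
  have h1 := psum_abs n
  have h2 : |∑ j ∈ range (n + 1), sg j * (tab (r j) - 19)| ≤ 11 * (n + 1) := by
    refine (abs_sum_le_sum_abs _ _).trans ?_
    have h3 : ∀ j ∈ range (n + 1), |sg j * (tab (r j) - 19)| ≤ 11 := by
      intro j _
      obtain ⟨h4, h5⟩ := tab_bd (r j)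
      rw [abs_mul]
      have h6 : |sg j| = 1 := by
        rcases sg_cases j with h | h <;> rw [h] <;> norm_num
      rw [h6, one_mul, abs_le]
      constructor <;> linarith
    refine (sum_le_sum h3).trans ?_
    rw [sum_const, card_range]
    simp only [nsmul_eq_mul]
    push_cast
    linarith
  refine (abs_add_le _ _).trans ?_
  have h7 : |19 * ∑ j ∈ range (n + 1), sg j| ≤ 19 := by
    rw [abs_mul]
    norm_num
    linarith
  linarith

/-- The antidifference. -/
def ee (k : ℕ) (N : ℤ) (j : ℕ) : ℤ :=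
  2 * (N - T (2 * k + j)) ^ 2 + 24 * (N - T (2 * k + j)) - 4 * N + 11

theorem base_sum (k : ℕ) (N : ℤ) (J : ℕ) :
    ∑ j ∈ range (J + 1), sg j * (4 * ((N - T (2 * k + j)) ^ 2 + 9 * (N - T (2 * k + j)))) =
      8 * k * ((N - T (2 * k)) + k + 6) - sg (J + 1) * ee k N J - sg (J + 2) * ee k N (J + 1) := by
  induction J with
  | zero =>
    rw [sum_range_one, sg_zero, sg_one, sg_two]
    unfold ee
    have h1 : ((T (2 * k + (0 + 1)) : ℕ) : ℤ) = T (2 * k) + (2 * k + 1) := by
      rw [show 2 * k + (0 + 1) = 2 * k + 1 by ring, T_succ]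
      push_cast
      ring
    have h2 : (2 : ℤ) * (T (2 * k) : ℕ) = 2 * k * (2 * k + 1) := by
      exact_mod_cast two_T (2 * k)
    rw [h1]
    simp only [add_zero]
    have h3 : ((T (2 * k) : ℕ) : ℤ) = k * (2 * k + 1) := by linarith
    rw [h3]
    ring
  | succ J ih =>
    rw [sum_range_succ, ih, sg_add_two (J + 1)]
    unfold ee
    have h1 : ((T (2 * k + (J + 1)) : ℕ) : ℤ) = T (2 * k + J) + (2 * k + J + 1) := by
      rw [show 2 * k + (J + 1) = 2 * k + J + 1 by ring, T_succ]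
      push_cast
      ring
    have h1' : ((T (2 * k + (J + 1 + 1)) : ℕ) : ℤ) =
        T (2 * k + J) + (2 * k + J + 1) + (2 * k + J + 2) := by
      rw [show 2 * k + (J + 1 + 1) = 2 * k + J + 1 + 1 by ring, T_succ, T_succ]
      push_cast
      ring
    have h2 : (2 : ℤ) * (T (2 * k + J) : ℕ) = (2 * k + J) * (2 * k + J + 1) := by
      exact_mod_cast two_T (2 * k + J)
    rw [h1, h1']
    linear_combination (4 * sg (J + 1)) * h2

theorem ee_bd (k : ℕ) (J y : ℕ) (hy : y ≤ 2 * k + J) :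
    |ee k ((y : ℤ) + T (2 * k + J)) J| + |ee k ((y : ℤ) + T (2 * k + J)) (J + 1)| ≤
      3 * ((2 * k + J : ℕ) : ℤ) ^ 2 + 6 * ((2 * k + J : ℕ) : ℤ) + 103 := by
  unfold ee
  have h1 : ((T (2 * k + (J + 1)) : ℕ) : ℤ) = T (2 * k + J) + (((2 * k + J : ℕ) : ℤ) + 1) := by
    rw [show 2 * k + (J + 1) = 2 * k + J + 1 by ring, T_succ]
    push_cast
    ring
  have h2 : (2 : ℤ) * (T (2 * k + J) : ℕ) = ((2 * k + J : ℕ) : ℤ) * (((2 * k + J : ℕ) : ℤ) + 1) := by
    exact_mod_cast two_T (2 * k + J)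
  rw [h1]
  have hy' : (y : ℤ) ≤ ((2 * k + J : ℕ) : ℤ) := by exact_mod_cast hy
  have hy0 : (0 : ℤ) ≤ y := by positivity
  generalize ((2 * k + J : ℕ) : ℤ) = M at *
  generalize ((T (2 * k + J) : ℕ) : ℤ) = t at *
  generalize (y : ℤ) = z at *
  have e1 : 2 * (z + t - t) ^ 2 + 24 * (z + t - t) - 4 * (z + t) + 11 =
      2 * z ^ 2 + 20 * z - 2 * M ^ 2 - 2 * M + 11 := by linear_combination (-2) * h2
  have e2 : 2 * (z + t - (t + (M + 1))) ^ 2 + 24 * (z + t - (t + (M + 1))) - 4 * (z + t) + 11 =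
      2 * z ^ 2 - 4 * z * M + 16 * z - 22 * M - 11 := by linear_combination (-2) * h2
  rw [e1, e2]
  have hM : 0 ≤ M := hy0.trans hy'
  have hz : z * (M - z) ≥ 0 := mul_nonneg hy0 (by linarith)
  have hz2 : (M - z) * M ≥ 0 := mul_nonneg (by linarith) hM
  rcases abs_cases (2 * z ^ 2 + 20 * z - 2 * M ^ 2 - 2 * M + 11) with ⟨h, -⟩ | ⟨h, -⟩ <;>
  rcases abs_cases (2 * z ^ 2 - 4 * z * M + 16 * z - 22 * M - 11) with ⟨h', -⟩ | ⟨h', -⟩ <;>
  rw [h, h']
  · nlinarith
  · nlinarith [sq_nonneg (M - 9)]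
  · nlinarith
  · nlinarith [sq_nonneg (2 * z - M + 9)]

/-- The general inequality. -/
theorem large (k J y : ℕ) (hy : y ≤ 2 * k + J)
    (h : 0 ≤ 8 * (k : ℤ) * (((y : ℤ) + T (2 * k + J) - T (2 * k)) + k + 6) -
      (3 * ((2 * k + J : ℕ) : ℤ) ^ 2 + 6 * ((2 * k + J : ℕ) : ℤ) + 103) - 4 * (19 + 11 * (J + 1))) :
    0 ≤ ∑ j ∈ range (J + 1), sg j * w30 (y + T (2 * k + J) - T (2 * k + j)) := by
  have e : 4 * ∑ j ∈ range (J + 1), sg j * w30 (y + T (2 * k + J) - T (2 * k + j)) =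
      ∑ j ∈ range (J + 1), sg j * (4 * (((y : ℤ) + T (2 * k + J) - T (2 * k + j)) ^ 2 +
        9 * ((y : ℤ) + T (2 * k + J) - T (2 * k + j)))) +
      4 * ∑ j ∈ range (J + 1), sg j * tab ((y + T (2 * k + J) - T (2 * k + j)) % 15) := by
    rw [mul_sum, mul_sum, ← sum_add_distrib]
    apply sum_congr rfl
    intro j hj
    rw [mem_range] at hj
    have h1 : T (2 * k + j) ≤ y + T (2 * k + J) := by
      have := T_mono (show 2 * k + j ≤ 2 * k + J by omega)
      omega
    unfold w30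
    rw [Nat.cast_sub h1]
    push_cast
    ring
  rw [base_sum] at e
  have h2 := ee_bd k J y hy
  have h3 := tab_sum J (fun j => (y + T (2 * k + J) - T (2 * k + j)) % 15)
  have h4 : -(19 + 11 * ((J : ℤ) + 1)) ≤
      ∑ j ∈ range (J + 1), sg j * tab ((y + T (2 * k + J) - T (2 * k + j)) % 15) :=
    (abs_le.mp h3).1
  have h5 : ∀ (s e : ℤ), (s = 1 ∨ s = -1) → s * e ≤ |e| := by
    intro s e hs
    rcases hs with hs | hs <;> rw [hs]
    · rw [one_mul]; exact le_abs_self e
    · rw [neg_one_mul]; exact neg_le_abs e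
  have h6 := h5 _ (ee k ((y : ℤ) + T (2 * k + J)) J) (sg_cases (J + 1))
  have h7 := h5 _ (ee k ((y : ℤ) + T (2 * k + J)) (J + 1)) (sg_cases (J + 2))
  linarith

/-- Recursive form of the sum. -/
def fs (k J y : ℕ) : ℕ → ℤ
  | 0 => 0
  | j + 1 => fs k J y j + (if (T j) % 2 = 0 then 1 else -1) *
      w30 (y + T (2 * k + J) - T (2 * k + j))

theorem fs_eq (k J y n : ℕ) :
    fs k J y n = ∑ j ∈ range n, sg j * w30 (y + T (2 * k + J) - T (2 * k + j)) := by
  induction n with
  | zero => rfl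
  | succ n ih =>
    rw [sum_range_succ, ← ih]
    have h : (if (T n) % 2 = 0 then (1 : ℤ) else -1) = sg n := by
      unfold sg
      split_ifs with h
      · exact (Even.neg_one_pow (Nat.even_iff.mpr h)).symm
      · exact (Odd.neg_one_pow (Nat.odd_iff.mpr (by omega))).symm
    rw [← h]
    rfl

theorem chk1 : ∀ J < 47, ∀ y < J + 3, 0 ≤ fs 1 J y (J + 1) := by decide +kernel

theorem chk2 : ∀ J < 6, ∀ y < J + 5, 0 ≤ fs 2 J y (J + 1) := by decide +kernel

/-- **The signed sum is non-negative.** -/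
theorem key (k J y : ℕ) (hk : 1 ≤ k) (hy : y ≤ 2 * k + J) :
    0 ≤ ∑ j ∈ range (J + 1), sg j * w30 (y + T (2 * k + J) - T (2 * k + j)) := by
  rcases Nat.lt_or_ge J 2 with hJ | hJ
  · interval_cases J
    · rw [sum_range_one, sg_zero, one_mul]
      unfold w30
      have := (tab_bd ((y + T (2 * k + 0) - T (2 * k + 0)) % 15)).1
      positivity
    · rw [sum_range_succ, sum_range_one, sg_zero, sg_one]
      have h1 : y + T (2 * k + 1) - T (2 * k + 0) = y + (2 * k + 1) := by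
        rw [T_succ, add_zero]
        omega
      have h2 : y + T (2 * k + 1) - T (2 * k + 1) = y := by omega
      rw [h1, h2]
      unfold w30
      have h3 := (tab_bd ((y + (2 * k + 1)) % 15)).1
      have h4 := (tab_bd (y % 15)).2
      have h5 : (1 : ℤ) ≤ k := by exact_mod_cast hk
      have h6 : (0 : ℤ) ≤ y := by positivity
      push_cast
      nlinarith
  · have hMM : ((2 * k + J : ℕ) : ℤ) = 2 * k + J := by push_cast; ring
    have h2 : (2 : ℤ) * (T (2 * k + J) : ℕ) = (2 * k + J) * (2 * k + J + 1) := by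
      exact_mod_cast two_T (2 * k + J)
    have h3 : (2 : ℤ) * (T (2 * k) : ℕ) = 2 * k * (2 * k + 1) := by
      exact_mod_cast two_T (2 * k)
    have hgen : 0 ≤ 4 * (k : ℤ) ^ 2 * (4 * J - 1) + (J : ℤ) ^ 2 * (4 * k - 3) - 8 * k * J + 36 * k
        - 50 * J - 223 + 8 * k * y →
        0 ≤ ∑ j ∈ range (J + 1), sg j * w30 (y + T (2 * k + J) - T (2 * k + j)) := by
      intro h
      apply large k J y hy
      rw [hMM]
      have h4 : ((T (2 * k + J) : ℕ) : ℤ) - (T (2 * k) : ℕ) = 2 * k * J + J * (J + 1) / 2 := by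
        have h5 : (2 : ℤ) ∣ J * (J + 1) := by
          have := (Nat.even_mul_succ_self J).two_dvd
          exact_mod_cast this
        obtain ⟨c, hc⟩ := h5
        rw [hc, Int.mul_ediv_cancel_left _ (by norm_num)]
        linarith
      have h6 : (2 : ℤ) * (((T (2 * k + J) : ℕ) : ℤ) - (T (2 * k) : ℕ)) = 4 * k * J + J * (J + 1) := by
        linear_combination h2 - h3
      have h7 : 8 * (k : ℤ) * (((y : ℤ) + T (2 * k + J) - T (2 * k)) + k + 6) =
          4 * k * (4 * k * J + J * (J + 1)) + 8 * k * y + 8 * k ^ 2 + 48 * k := by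
        linear_combination (4 * (k : ℤ)) * h6
      rw [h7]
      linarith
    have hy0 : (0 : ℤ) ≤ y := by positivity
    rcases Nat.lt_or_ge k 3 with hk3 | hk3
    · interval_cases k
      · rcases Nat.lt_or_ge J 47 with hJ' | hJ'
        · have := chk1 J hJ' y (by omega)
          rwa [fs_eq] at this
        · apply hgen
          have : (47 : ℤ) ≤ J := by exact_mod_cast hJ'
          push_cast
          nlinarith
      · rcases Nat.lt_or_ge J 6 with hJ' | hJ'
        · have := chk2 J hJ' y (by omega)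
          rwa [fs_eq] at this
        · apply hgen
          have : (6 : ℤ) ≤ J := by exact_mod_cast hJ'
          push_cast
          nlinarith
    · apply hgen
      obtain ⟨a, rfl⟩ := Nat.exists_eq_add_of_le hk3
      obtain ⟨b, rfl⟩ := Nat.exists_eq_add_of_le hJ
      have ha : (0 : ℤ) ≤ a := by positivity
      have hb : (0 : ℤ) ≤ b := by positivity
      have e : 4 * (((3 + a : ℕ) : ℤ)) ^ 2 * (4 * ((2 + b : ℕ) : ℤ) - 1) +
          ((2 + b : ℕ) : ℤ) ^ 2 * (4 * ((3 + a : ℕ) : ℤ) - 3) -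
          8 * ((3 + a : ℕ) : ℤ) * ((2 + b : ℕ) : ℤ) + 36 * ((3 + a : ℕ) : ℤ)
          - 50 * ((2 + b : ℕ) : ℤ) - 223 + 8 * ((3 + a : ℕ) : ℤ) * y =
          25 + 106 * b + 204 * (a : ℤ) + 104 * a * b + 28 * a ^ 2 + 16 * a ^ 2 * b + 9 * b ^ 2 +
            4 * a * b ^ 2 + 24 * y + 8 * a * y := by
        push_cast
        ring
      rw [e]
      positivity

end Pool.Agent.P8H96.TTS
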