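import Pool.Agent.P8H96.TTS.Ineq

/-!
# The power series part

`∏ (1 + q ^ i)` times `(1 - q) (1 - q ^ 3) (1 - q ^ 5)` has non-negative coefficients, and the
power series with coefficients `w30` is `30 / ((1 - q) (1 - q ^ 3) (1 - q ^ 5))`.
-/

set_option autoImplicit false

namespace Pool.Agent.P8H96.TTS

open Finset PowerSeries Filter
open scoped PowerSeries.WithPiTopology Topology

/-- All coefficients are non-negative. -/
def NN (f : ℤ⟦X⟧) : Prop := ∀ n, 0 ≤ coeff n f

theorem NN.mul {f g : ℤ⟦X⟧} (hf : NN f) (hg : NN g) : NN (f * g) := by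
  intro n
  rw [coeff_mul]
  exact sum_nonneg fun p _ => mul_nonneg (hf _) (hg _)

theorem NN.one : NN 1 := by
  intro n
  rw [coeff_one]
  split_ifs <;> norm_num

theorem NN.prod {ι : Type} (s : Finset ι) (f : ι → ℤ⟦X⟧) (h : ∀ i ∈ s, NN (f i)) :
    NN (∏ i ∈ s, f i) := by
  classical
  induction s using Finset.induction_on with
  | empty => rw [prod_empty]; exact NN.one
  | insert a s ha ih =>
    rw [prod_insert ha]
    exact (h a (mem_insert_self a s)).mul (ih fun i hi => h i (mem_insert_of_mem hi))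

theorem NN.one_add_X_pow (i : ℕ) : NN (1 + X ^ i) := by
  intro n
  rw [map_add, coeff_one, coeff_X_pow]
  split_ifs <;> norm_num

/-- The power series with coefficients `w30`. -/
noncomputable def U : ℤ⟦X⟧ := PowerSeries.mk w30

theorem U_eq : (1 - X) * (1 - X ^ 3) * (1 - X ^ 5) * U = C (30 : ℤ) := by
  have e : (1 - X) * (1 - X ^ 3) * (1 - X ^ 5) * U =
      U - X ^ 1 * U - X ^ 3 * U + X ^ 4 * U - X ^ 5 * U + X ^ 6 * U + X ^ 8 * U - X ^ 9 * U := by
    ring
  rw [e]
  ext n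
  simp only [map_add, map_sub, coeff_X_pow_mul', coeff_C]
  unfold U
  simp only [coeff_mk]
  rcases Nat.lt_or_ge n 9 with hn | hn
  · interval_cases n <;> decide +kernel
  · obtain ⟨m, rfl⟩ := Nat.exists_eq_add_of_le hn
    rw [if_pos (by omega), if_pos (by omega), if_pos (by omega), if_pos (by omega),
      if_pos (by omega), if_pos (by omega), if_pos (by omega), if_neg (by omega)]
    have h1 : 9 + m - 1 = m + 8 := by omega
    have h3 : 9 + m - 3 = m + 6 := by omega
    have h4 : 9 + m - 4 = m + 5 := by omega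
    have h5 : 9 + m - 5 = m + 4 := by omega
    have h6 : 9 + m - 6 = m + 3 := by omega
    have h8 : 9 + m - 8 = m + 1 := by omega
    have h9 : 9 + m - 9 = m := by omega
    rw [h1, h3, h4, h5, h6, h8, h9, add_comm 9 m]
    unfold w30
    have hr : m % 15 < 15 := Nat.mod_lt _ (by norm_num)
    have ha : ∀ c, (m + c) % 15 = (m % 15 + c) % 15 := fun c => by omega
    rw [ha 9, ha 8, ha 6, ha 5, ha 4, ha 3, ha 1]
    have ht : ∀ r < 15, tab ((r + 9) % 15) - tab ((r + 8) % 15) - tab ((r + 6) % 15) +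
        tab ((r + 5) % 15) - tab ((r + 4) % 15) + tab ((r + 3) % 15) + tab ((r + 1) % 15) -
        tab r = 0 := by decide +kernel
    have := ht _ hr
    push_cast
    linarith

/-- Telescoping product. -/
theorem telescope (j M : ℕ) :
    (1 - X ^ j) * ∏ m ∈ range M, (1 + X ^ (j * 2 ^ m)) = (1 - X ^ (j * 2 ^ M) : ℤ⟦X⟧) := by
  induction M with
  | zero => simp
  | succ M ih =>
    rw [prod_range_succ, ← mul_assoc, ih]
    have : j * 2 ^ (M + 1) = j * 2 ^ M + j * 2 ^ M := by ring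
    rw [this, pow_add]
    ring

theorem odd_inj {j j' m m' : ℕ} (hj : j % 2 = 1) (hj' : j' % 2 = 1)
    (h : j * 2 ^ m = j' * 2 ^ m') : j = j' ∧ m = m' := by
  have aux : ∀ {a b p q : ℕ}, a % 2 = 1 → p ≤ q → a * 2 ^ p = b * 2 ^ q → p = q := by
    intro a b p q ha hpq hh
    obtain ⟨c, rfl⟩ := Nat.exists_eq_add_of_le hpq
    rw [pow_add, mul_left_comm, mul_comm a] at hh
    have h2 : a = b * 2 ^ c := Nat.eq_of_mul_eq_mul_left (by positivity) hh
    rcases c with _ | c
    · rfl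
    · rw [pow_succ, ← mul_assoc] at h2
      omega
  have hm : m = m' := by
    rcases le_total m m' with hle | hle
    · exact aux hj hle h
    · exact (aux hj' hle h.symm).symm
  subst hm
  exact ⟨Nat.eq_of_mul_eq_mul_right (by positivity) h, rfl⟩

/-- The indices `i` with `i + 1 = j * 2 ^ m`, `j ∈ {1, 3, 5}`, `m < M`. -/
def DD (M : ℕ) : Finset ℕ := (({1, 3, 5} : Finset ℕ) ×ˢ range M).image (fun p => p.1 * 2 ^ p.2 - 1)

theorem prod_DD (M : ℕ) :
    ∏ i ∈ DD M, (1 + X ^ (i + 1) : ℤ⟦X⟧) =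
      ∏ j ∈ ({1, 3, 5} : Finset ℕ), ∏ m ∈ range M, (1 + X ^ (j * 2 ^ m)) := by
  unfold DD
  rw [prod_image, prod_product]
  · apply prod_congr rfl
    intro j hj
    apply prod_congr rfl
    intro m _
    have hj0 : 1 ≤ j := by
      simp only [mem_insert, mem_singleton] at hj
      omega
    have : 1 ≤ j * 2 ^ m := Nat.one_le_iff_ne_zero.mpr (by positivity)
    rw [Nat.sub_add_cancel this]
  · rintro ⟨j, m⟩ h ⟨j', m'⟩ h' he
    rw [mem_coe, mem_product] at h h'
    have hj : j = 1 ∨ j = 3 ∨ j = 5 := by simpa using h.1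
    have hj' : j' = 1 ∨ j' = 3 ∨ j' = 5 := by simpa using h'.1
    have p1 : 1 ≤ j * 2 ^ m := Nat.one_le_iff_ne_zero.mpr
      (mul_ne_zero (by omega) (by positivity))
    have p2 : 1 ≤ j' * 2 ^ m' := Nat.one_le_iff_ne_zero.mpr
      (mul_ne_zero (by omega) (by positivity))
    have he' : j * 2 ^ m - 1 = j' * 2 ^ m' - 1 := he
    obtain ⟨h1, h2⟩ := odd_inj (by omega) (by omega) (show j * 2 ^ m = j' * 2 ^ m' by omega)
    rw [h1, h2]

/-- The product over `DD M` cancels the three factors up to high order. -/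
theorem cancel (M : ℕ) :
    ∃ Z : ℤ⟦X⟧, (1 - X) * (1 - X ^ 3) * (1 - X ^ 5) * ∏ i ∈ DD M, (1 + X ^ (i + 1)) =
      1 + X ^ (2 ^ M) * Z := by
  rw [prod_DD, prod_insert (by decide), prod_insert (by decide), prod_singleton]
  have h1 := telescope 1 M
  have h3 := telescope 3 M
  have h5 := telescope 5 M
  rw [pow_one, one_mul] at h1
  refine ⟨-1 - X ^ (2 * 2 ^ M) + X ^ (3 * 2 ^ M) - X ^ (4 * 2 ^ M) + X ^ (5 * 2 ^ M) +
    X ^ (7 * 2 ^ M) - X ^ (8 * 2 ^ M), ?_⟩
  have e : (1 - X) * (1 - X ^ 3) * (1 - X ^ 5) * ((∏ m ∈ range M, (1 + X ^ (1 * 2 ^ m))) *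
      ((∏ m ∈ range M, (1 + X ^ (3 * 2 ^ m))) * ∏ m ∈ range M, (1 + X ^ (5 * 2 ^ m)))) =
      (((1 - X) * ∏ m ∈ range M, (1 + X ^ (1 * 2 ^ m))) *
      ((1 - X ^ 3) * ∏ m ∈ range M, (1 + X ^ (3 * 2 ^ m)))) *
      ((1 - X ^ 5) * ∏ m ∈ range M, (1 + X ^ (5 * 2 ^ m)) : ℤ⟦X⟧) := by ring
  rw [e, h1, h3, h5]
  have p : ∀ c, (X : ℤ⟦X⟧) ^ (c * 2 ^ M) = (X ^ (2 ^ M)) ^ c := fun c => by
    rw [mul_comm, pow_mul]
  rw [p 2, p 3, p 4, p 5, p 7, p 8]
  ring

/-- The terms of the series. -/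
noncomputable def term (k n : ℕ) : ℤ⟦X⟧ := C ((-1 : ℤ) ^ T n) * X ^ T (n + 2 * k)

/-- Coefficients of `U * A`. -/
theorem coeff_UA (k : ℕ) (A : ℤ⟦X⟧) (hA : HasSum (term k) A) (n : ℕ) :
    coeff n (U * A) = ∑ j ∈ range (n + 1),
      if T (j + 2 * k) ≤ n then sg j * w30 (n - T (j + 2 * k)) else 0 := by
  have h1 : HasSum (fun j => U * term k j) (U * A) := hA.mul_left U
  have h2 := (PowerSeries.WithPiTopology.hasSum_iff_hasSum_coeff (R := ℤ)).mp h1 n
  have h3 : ∀ j, coeff n (U * term k j) =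
      if T (j + 2 * k) ≤ n then sg j * w30 (n - T (j + 2 * k)) else 0 := by
    intro j
    unfold term
    have : U * (C ((-1 : ℤ) ^ T j) * X ^ T (j + 2 * k)) =
        C ((-1 : ℤ) ^ T j) * (X ^ T (j + 2 * k) * U) := by ring
    rw [this, coeff_C_mul, coeff_X_pow_mul']
    unfold U sg
    split_ifs
    · rw [coeff_mk]
    · rw [mul_zero]
  simp only [h3] at h2
  refine h2.unique ?_
  apply hasSum_sum_of_ne_finset_zero
  intro j hj
  rw [mem_range, not_lt] at hj
  rw [if_neg]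
  have := le_T (j + 2 * k)
  omega

theorem NN_UA (k : ℕ) (hk : 1 ≤ k) (A : ℤ⟦X⟧) (hA : HasSum (term k) A) : NN (U * A) := by
  intro n
  rw [coeff_UA k A hA]
  rcases Nat.lt_or_ge n (T (2 * k)) with hn | hn
  · apply le_of_eq
    symm
    apply sum_eq_zero
    intro j _
    rw [if_neg]
    have := T_mono (show 2 * k ≤ j + 2 * k by omega)
    omega
  · let P : ℕ → Prop := fun J => T (2 * k + J) ≤ n
    let J := Nat.findGreatest P n
    have hJ : T (2 * k + J) ≤ n := Nat.findGreatest_spec (P := P) (Nat.zero_le n) hn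
    have hJn : J ≤ n := Nat.findGreatest_le n
    have hJ' : n < T (2 * k + J + 1) := by
      by_contra hc
      push Not at hc
      have h1 : J + 1 ≤ n := by
        have := le_T (2 * k + J + 1)
        omega
      have h2 := Nat.findGreatest_is_greatest (P := P) (Nat.lt_succ_self J) h1
      exact h2 hc
    have e : ∑ j ∈ range (n + 1),
        (if T (j + 2 * k) ≤ n then sg j * w30 (n - T (j + 2 * k)) else 0) =
        ∑ j ∈ range (J + 1), sg j * w30 ((n - T (2 * k + J)) + T (2 * k + J) - T (2 * k + j)) := by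
      rw [← sum_filter]
      have : (range (n + 1)).filter (fun j => T (j + 2 * k) ≤ n) = range (J + 1) := by
        ext j
        rw [mem_filter, mem_range, mem_range]
        constructor
        · rintro ⟨_, h2⟩
          by_contra hc
          push Not at hc
          have := T_mono (show 2 * k + J + 1 ≤ j + 2 * k by omega)
          omega
        · intro h
          refine ⟨by omega, ?_⟩
          have := T_mono (show j + 2 * k ≤ 2 * k + J by omega)
          omega
      rw [this]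
      apply sum_congr rfl
      intro j _
      rw [Nat.sub_add_cancel hJ, add_comm j]
    rw [e]
    apply key k J _ hk
    rw [T_succ] at hJ'
    omega

/-- **Main theorem.** -/
theorem main (k : ℕ) (hk : 1 ≤ k) (P A : ℤ⟦X⟧)
    (hP : HasProd (fun i : ℕ => (1 + X ^ (i + 1) : ℤ⟦X⟧)) P) (hA : HasSum (term k) A) :
    NN (P * A) := by
  classical
  intro N
  have h1 : Tendsto (fun s : Finset ℕ => coeff N ((∏ i ∈ s, (1 + X ^ (i + 1) : ℤ⟦X⟧)) * A)) atTop
      (𝓝 (coeff N (P * A))) := by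
    have hc : Continuous (fun f : ℤ⟦X⟧ => coeff N (f * A)) :=
      (PowerSeries.WithPiTopology.continuous_coeff ℤ N).comp (continuous_mul_const A)
    exact (hc.tendsto P).comp hP
  rw [nhds_discrete, tendsto_pure, eventually_atTop] at h1
  obtain ⟨s0, hs0⟩ := h1
  set s := s0 ∪ DD N with hs
  rw [← hs0 s subset_union_left]
  have hsplit : ∏ i ∈ s, (1 + X ^ (i + 1) : ℤ⟦X⟧) =
      (∏ i ∈ s \ DD N, (1 + X ^ (i + 1))) * ∏ i ∈ DD N, (1 + X ^ (i + 1)) :=
    (prod_sdiff subset_union_right).symm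
  obtain ⟨Z, hZ⟩ := cancel N
  set R : ℤ⟦X⟧ := ∏ i ∈ s \ DD N, (1 + X ^ (i + 1)) with hR
  have hRN : NN R := NN.prod _ _ fun i _ => NN.one_add_X_pow (i + 1)
  have h30 : C (30 : ℤ) * ((∏ i ∈ s, (1 + X ^ (i + 1) : ℤ⟦X⟧)) * A) =
      R * (U * A) + X ^ (2 ^ N) * (Z * R * (U * A)) := by
    rw [hsplit, ← U_eq]
    have : (1 - X) * (1 - X ^ 3) * (1 - X ^ 5) * U *
        (R * (∏ i ∈ DD N, (1 + X ^ (i + 1))) * A) =
        ((1 - X) * (1 - X ^ 3) * (1 - X ^ 5) * ∏ i ∈ DD N, (1 + X ^ (i + 1))) *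
          (R * (U * A)) := by ring
    rw [this, hZ]
    ring
  have h2 := congrArg (coeff N) h30
  rw [coeff_C_mul, map_add, coeff_X_pow_mul', if_neg (by
    have := Nat.lt_two_pow_self (n := N)
    omega), add_zero] at h2
  have h3 := (hRN.mul (NN_UA k hk A hA)) N
  rw [← h2] at h3
  linarith

/-- The product converges. -/
theorem multipliable : Multipliable (fun i : ℕ => (1 + X ^ (i + 1) : ℤ⟦X⟧)) := by
  apply PowerSeries.WithPiTopology.multipliable_one_add_of_tendsto_order_atTop_nhds_top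
  refine ENat.tendsto_nhds_top_iff_natCast_lt.mpr
    (fun n ↦ Filter.eventually_atTop.mpr ⟨n, fun m hm => ?_⟩)
  rw [order_X_pow]
  norm_cast
  omega

/-- The series converges. -/
theorem summable (k : ℕ) : Summable (term k) := by
  rw [PowerSeries.WithPiTopology.summable_iff_summable_coeff]
  intro n
  apply summable_of_ne_finset_zero (s := range (n + 1))
  intro j hj
  rw [mem_range, not_lt] at hj
  unfold term
  rw [coeff_C_mul, coeff_X_pow, if_neg, mul_zero]
  have := le_T (j + 2 * k)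
  omega

end Pool.Agent.P8H96.TTS
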